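import Mathlib

set_option autoImplicit false
open Finset Matrix

namespace Pool.Agent.Results.MP_288038_co.Gap

variable {d : ℕ}

/-- An integer point as a real point. -/
def re (x : Fin d → ℤ) : Fin d → ℝ := fun i => x i

/-- The real convex hull of a set of integer points. -/
def conv (X : Set (Fin d → ℤ)) : Set (Fin d → ℝ) := convexHull ℝ (re '' X)

/-- The least number of linear inequalities whose integer solutions are exactly `X`. -/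
noncomputable def rc (X : Set (Fin d → ℤ)) : ℕ :=
  sInf {k | ∃ (a : Fin k → Fin d → ℝ) (b : Fin k → ℝ), ∀ x, x ∈ X ↔ ∀ i, a i ⬝ᵥ re x ≤ b i}

/-- Hiding sets. -/
def Hiding (X S : Set (Fin d → ℤ)) : Prop :=
  Disjoint S X ∧ ∀ p ∈ S, ∀ q ∈ S, p ≠ q → (segment ℝ (re p) (re q) ∩ conv X).Nonempty

/-- The largest size of a hiding set. -/
noncomputable def H (X : Set (Fin d → ℤ)) : ℕ∞ := ⨆ (S : Set (Fin d → ℤ)) (_ : Hiding X S), S.encard

theorem cast_dot (a x : Fin d → ℤ) : re a ⬝ᵥ re x = (a ⬝ᵥ x : ℤ) := by simp [re, dotProduct]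

theorem lin (a : Fin d → ℝ) : IsLinearMap ℝ fun x : Fin d → ℝ => a ⬝ᵥ x :=
  ⟨fun _ _ => dotProduct_add .., fun _ _ => dotProduct_smul ..⟩

theorem valid {X : Set (Fin d → ℤ)} (a : Fin d → ℤ) (b : ℤ) (h : ∀ x ∈ X, a ⬝ᵥ x ≤ b) :
    ∀ z ∈ conv X, re a ⬝ᵥ z ≤ b := fun _ hz =>
  convexHull_min (t := {z | re a ⬝ᵥ z ≤ b}) (by
    rintro _ ⟨x, hx, rfl⟩
    show re a ⬝ᵥ re x ≤ b
    rw [cast_dot]; exact_mod_cast h x hx) (convex_halfSpace_le (lin _) _) hz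

theorem sep {X : Set (Fin d → ℤ)} (a : Fin d → ℤ) (b : ℤ) (h : ∀ x ∈ X, a ⬝ᵥ x ≤ b)
    {p q : Fin d → ℤ} (hp : b < a ⬝ᵥ p) (hq : b < a ⬝ᵥ q) :
    ¬ (segment ℝ (re p) (re q) ∩ conv X).Nonempty := by
  rintro ⟨z, h1, h2⟩
  refine (valid a b h z h2).not_gt ((convex_halfSpace_gt (lin (re a)) (b : ℝ)).segment_subset ?_ ?_ h1)
  all_goals (show (b : ℝ) < re a ⬝ᵥ re _; rw [cast_dot]; exact_mod_cast ‹_›)

def A (m : ℤ) : Fin 6 → (Fin 4 → ℤ) × ℤ :=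
  ![(![1, 1, 0, 0], 1), (![1, -2, 0, 0], 1), (![-2, 1, 0, 0], 1), (![0, 0, -1, 0], 0),
    (![0, 0, 1, 0], 2 * m - 1), (![0, 0, 0, 1], 4 * m ^ 2)]

def B (j : Fin 3) (s : ℤ) : (Fin 4 → ℤ) × ℤ :=
  (![![1, 1, 2 * s + 1, -1], ![1, -2, 2 * s + 1, -1], ![-2, 1, 2 * s + 1, -1]] j, s * (s + 1))

def X (m : ℤ) : Set (Fin 4 → ℤ) := {x | (∀ i, (A m i).1 ⬝ᵥ x ≤ (A m i).2) ∧
  ∀ j, (B j (x 2)).1 ⬝ᵥ x ≤ (B j (x 2)).2}

theorem mem {m : ℤ} {x : Fin 4 → ℤ} : x ∈ X m ↔ x 0 + x 1 ≤ 1 ∧ x 0 - 2 * x 1 ≤ 1 ∧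
    x 1 - 2 * x 0 ≤ 1 ∧ 0 ≤ x 2 ∧ x 2 ≤ 2 * m - 1 ∧ x 3 ≤ 4 * m ^ 2 ∧ x 0 + x 1 + x 2 ^ 2 ≤ x 3 ∧
    x 0 - 2 * x 1 + x 2 ^ 2 ≤ x 3 ∧ x 1 - 2 * x 0 + x 2 ^ 2 ≤ x 3 := by
  simp [X, A, B, Fin.forall_fin_succ, dotProduct, Fin.sum_univ_four]
  constructor
  · rintro ⟨⟨a, b, c, d, e, f⟩, g, h, i⟩
    refine ⟨?_, ?_, ?_, ?_, ?_, ?_, ?_, ?_, ?_⟩ <;> nlinarith
  · rintro ⟨a, b, c, d, e, f, g, h, i⟩
    refine ⟨⟨?_, ?_, ?_, ?_, ?_, ?_⟩, ?_, ?_, ?_⟩ <;> nlinarith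

theorem vB {m : ℤ} (j : Fin 3) (s : ℤ) : ∀ x ∈ X m, (B j s).1 ⬝ᵥ x ≤ (B j s).2 := by
  intro x hx
  obtain ⟨-, -, -, -, -, -, g, h, i⟩ := mem.mp hx
  have : 0 ≤ (x 2 - s) * (x 2 - s - 1) := by
    rcases le_or_gt (x 2) s with c | c <;> nlinarith
  fin_cases j <;> simp [B, dotProduct, Fin.sum_univ_four] <;> nlinarith

theorem H_le (m : ℕ) : H (X m) ≤ (m + 6 : ℕ) := by
  classical
  refine iSup₂_le fun S ⟨h1, h2⟩ => ?_
  let c : (Fin 4 → ℤ) → ℕ := fun p => if h : ∃ i, (A m i).2 < (A m i).1 ⬝ᵥ p then h.choose.val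
    else 6 + (p 2 / 2).toNat
  have k : ∀ p, ¬ (∃ i, (A m i).2 < (A m i).1 ⬝ᵥ p) → p 0 + p 1 ≤ 1 ∧ p 0 - 2 * p 1 ≤ 1 ∧
      p 1 - 2 * p 0 ≤ 1 ∧ 0 ≤ p 2 ∧ p 2 ≤ 2 * m - 1 ∧ p 3 ≤ 4 * m ^ 2 := by
    intro p h
    simp [A, Fin.forall_fin_succ, dotProduct, Fin.sum_univ_four] at h
    omega
  rw [← card_range (m + 6), ← Set.encard_coe_eq_coe_finsetCard]
  refine Set.encard_le_encard_of_injOn (f := c) (fun p _ => ?_) fun p hp q hq e => ?_
  · simp only [c, coe_range, Set.mem_Iio]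
    split_ifs with h
    · omega
    · have := k p h; omega
  by_contra n
  simp only [c] at e
  split_ifs at e with a b b
  · exact sep _ _ (fun x hx => hx.1 _) a.choose_spec (Fin.ext e ▸ b.choose_spec) (h2 p hp q hq n)
  · omega
  · omega
  have kp := k p a
  have kq := k q b
  have np := mt mem.mpr (h1.notMem_of_mem_left hp)
  have nq := mt mem.mpr (h1.notMem_of_mem_left hq)
  obtain ⟨s, hs, hs'⟩ : ∃ s : ℤ, (p 2 = s ∨ p 2 = s + 1) ∧ (q 2 = s ∨ q 2 = s + 1) :=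
    ⟨2 * (p 2 / 2), by omega, by omega⟩
  have e1 : (2 * s + 1) * p 2 = p 2 ^ 2 + s * (s + 1) := by rcases hs with h | h <;> rw [h] <;> ring
  have e2 : (2 * s + 1) * q 2 = q 2 ^ 2 + s * (s + 1) := by rcases hs' with h | h <;> rw [h] <;> ring
  obtain ⟨j, j1, j2⟩ : ∃ j, (B j s).2 < (B j s).1 ⬝ᵥ p ∧ (B j s).2 < (B j s).1 ⬝ᵥ q := by
    simp [B, Fin.exists_fin_succ, dotProduct, Fin.sum_univ_four, e1, e2]
    omega
  exact sep _ _ (vB j s) j1 j2 (h2 p hp q hq n)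

theorem rc_ge (m : ℕ) : 2 * m ≤ rc (X m) := by
  classical
  refine le_csInf ?_ ?_
  · let T := Fin 6 ⊕ Fin 3 × Fin (2 * m)
    let C : T → (Fin 4 → ℤ) × ℤ := Sum.elim (A m) fun z => B z.1 z.2.val
    let e := (Fintype.equivFin T).symm
    refine ⟨_, fun i => re (C (e i)).1, fun i => (C (e i)).2, fun x => ?_⟩
    simp only [cast_dot, Int.cast_le]
    rw [e.forall_congr_right (q := fun t => (C t).1 ⬝ᵥ x ≤ (C t).2), Sum.forall]
    refine ⟨fun h => ⟨h.1, fun z => vB _ _ x h⟩, fun ⟨h1, h2⟩ => ⟨h1, fun j => ?_⟩⟩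
    have a := h1 3
    have b := h1 4
    simp [C, A, dotProduct, Fin.sum_univ_four] at a b
    have := h2 (j, ⟨(x 2).toNat, by omega⟩)
    simpa [C, Int.toNat_of_nonneg a] using this
  rintro k ⟨a, b, h⟩
  let u : Fin 3 → ℤ := ![1, 0, -1]
  let v : Fin 3 → ℤ := ![0, 1, -1]
  have ex : ∀ (s : Fin m) (j : Fin 3), ∃ i, b i < a i ⬝ᵥ re ![u j, v j, 2 * s, 4 * s ^ 2] := by
    intro s j
    by_contra c
    push Not at c
    have := mem.mp ((h _).mpr c)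
    fin_cases j <;> simp [u, v] at this <;> nlinarith
  choose c hc using ex
  have nc : ∀ s, ∃ g : Fin 2 → Fin 3, c s (g 0) ≠ c s (g 1) := by
    intro s
    by_contra n
    push Not at n
    have h0 := hc s 0
    have h1 := hc s 1
    have h2 := hc s 2
    rw [show c s 1 = c s 0 from n ![1, 0]] at h1
    rw [show c s 2 = c s 0 from n ![2, 0]] at h2
    have hs : (s : ℤ) < m := by exact_mod_cast s.2
    have s0 : (0 : ℤ) ≤ s := Nat.cast_nonneg _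
    have := (h ![0, 0, 2 * s, 4 * s ^ 2]).mp (mem.mpr (by
      simp only [Matrix.cons_val]; refine ⟨?_, ?_, ?_, ?_, ?_, ?_, ?_, ?_, ?_⟩ <;> nlinarith)) (c s 0)
    simp [u, v, re, dotProduct, Fin.sum_univ_four] at h0 h1 h2 this
    linarith
  choose g hg using nc
  have df : ∀ s t i j, c s i = c t j → s = t := by
    intro s t i j e
    by_contra n
    have n : (s : ℤ) ≠ t := by simpa [Fin.ext_iff] using n
    have n : 1 ≤ ((s : ℤ) - t) ^ 2 := by have := sq_pos_of_ne_zero (sub_ne_zero.mpr n); omega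
    have hs : (s : ℤ) < m := by exact_mod_cast s.2
    have ht : (t : ℤ) < m := by exact_mod_cast t.2
    have M : ∀ j, ![u j, v j, s + t, 2 * s ^ 2 + 2 * t ^ 2] ∈ X m := fun j => mem.mpr (by
      have s0 : (0 : ℤ) ≤ s := Nat.cast_nonneg _
      have t0 : (0 : ℤ) ≤ t := Nat.cast_nonneg _
      have : u j + v j ≤ 1 ∧ u j - 2 * v j ≤ 1 ∧ v j - 2 * u j ≤ 1 := by
        fin_cases j <;> simp [u, v]
      obtain ⟨a1, a2, a3⟩ := this
      simp only [Matrix.cons_val]; refine ⟨?_, ?_, ?_, ?_, ?_, ?_, ?_, ?_, ?_⟩ <;> nlinarith)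
    have h0 := hc s i
    have h1 := hc t j
    have h2 := (h _).mp (M i) (c t j)
    have h3 := (h _).mp (M j) (c t j)
    rw [e] at h0
    simp [re, dotProduct, Fin.sum_univ_four] at h0 h1 h2 h3
    linarith
  have := Fintype.card_le_of_injective (fun z : Fin 2 × Fin m => c z.2 (g z.2 z.1)) (by
    rintro ⟨i, s⟩ ⟨j, t⟩ e
    obtain rfl := df _ _ _ _ e
    fin_cases i <;> fin_cases j
    exacts [rfl, absurd e (hg s), absurd e.symm (hg s), rfl])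
  simpa using this

theorem result : ¬ ∀ d : ℕ, 1 ≤ d → ∃ h : ℕ, ∀ X : Set (Fin d → ℤ), X.Finite →
    (∀ x, re x ∈ conv X → x ∈ X) → affineSpan ℝ (re '' X) = ⊤ → (rc X : ℕ∞) ≤ H X + h := by
  intro h
  obtain ⟨h, hh⟩ := h 4 (by norm_num)
  have := hh (X (h + 7 : ℕ)) ?_ (fun x hx => ?_) ?_
  · have b : (rc (X (h + 7 : ℕ)) : ℕ∞) ≤ (h + 7 + 6 + h : ℕ) :=
      this.trans (by rw [Nat.cast_add _ h]; exact add_le_add_left (H_le _) _)
    have := rc_ge (h + 7)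
    have := Nat.cast_le.mp b
    omega
  · refine (Set.finite_Icc (fun _ => -1) fun _ => 4 * ((h + 7 : ℕ) : ℤ) ^ 2).subset fun x hx => ?_
    have := mem.mp hx
    have : (0 : ℤ) ≤ h := Nat.cast_nonneg h
    have : ((h + 7 : ℕ) : ℤ) ≤ ((h + 7 : ℕ) : ℤ) ^ 2 := by push_cast; nlinarith
    have := sq_nonneg (x 2)
    constructor <;> intro i <;> fin_cases i <;> simp only [Fin.reduceFinMk] <;> omega
  · refine ⟨fun i => ?_, fun j => ?_⟩
    · have := valid _ _ (fun y hy => hy.1 i) _ hx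
      rwa [cast_dot, Int.cast_le] at this
    · have := valid _ _ (vB j (x 2)) _ hx
      rwa [cast_dot, Int.cast_le] at this
  · have : (0 : ℤ) ≤ h := Nat.cast_nonneg h
    have M : ∀ x : Fin 4 → ℤ, x ∈ X (h + 7 : ℕ) → re x ∈ affineSpan ℝ (re '' X (h + 7 : ℕ)) :=
      fun x hx => subset_affineSpan _ _ ⟨x, hx, rfl⟩
    have m0 := M ![0, 0, 0, 1] (mem.mpr (by simp; constructor <;> nlinarith))
    have D : ∀ x : Fin 4 → ℤ, x ∈ X (h + 7 : ℕ) → re x - re ![0, 0, 0, 1] ∈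
        (affineSpan ℝ (re '' X (h + 7 : ℕ))).direction := fun x hx =>
      AffineSubspace.vsub_mem_direction (M x hx) m0
    refine eq_top_iff.mpr fun z _ => ?_
    have := AffineSubspace.vadd_mem_of_mem_direction (Submodule.add_mem _ (Submodule.add_mem _
      (Submodule.smul_mem _ (z 0) (D ![1, 0, 0, 1] (mem.mpr (by simp; constructor <;> nlinarith))))
      (Submodule.smul_mem _ (z 1) (D ![0, 1, 0, 1] (mem.mpr (by simp; constructor <;> nlinarith)))))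
      (Submodule.add_mem _
      (Submodule.smul_mem _ (z 2) (D ![0, 0, 1, 1] (mem.mpr (by simp; constructor <;> nlinarith))))
      (Submodule.smul_mem _ (z 3 - 1) (D ![0, 0, 0, 2] (mem.mpr (by simp; constructor <;> nlinarith)))))) m0
    have e : ∀ w, w ∈ affineSpan ℝ (re '' X (h + 7 : ℕ)) → (∀ i, w i = z i) →
        z ∈ affineSpan ℝ (re '' X (h + 7 : ℕ)) := fun w a b => (funext b : w = z) ▸ a
    refine e _ this fun i => ?_
    fin_cases i <;> simp [re] <;> norm_num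

end Pool.Agent.Results.MP_288038_co.Gap
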